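import Pool.Agent.H64.LB.Targets

/-!
# PNT: projective space is compact and Hausdorff
-/

open Topology Set Pool.Agent.H64.LB

namespace Pool.Agent.H24.LB

/-- sum of the squares of the absolute values -/
noncomputable def nsq {n : ℕ} (v : Fin (n + 1) → ℂ) : ℂ := ∑ k, v k * (starRingEnd ℂ) (v k)

theorem nsq_eq {n : ℕ} (v : Fin (n + 1) → ℂ) : nsq v = ((∑ k, Complex.normSq (v k) : ℝ) : ℂ) := by
  rw [nsq, Complex.ofReal_sum]
  exact Finset.sum_congr rfl fun k _ => Complex.mul_conj _

theorem nsq_ne {n : ℕ} {v : Fin (n + 1) → ℂ} (h : v ≠ 0) : nsq v ≠ 0 := by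
  rw [nsq_eq, Complex.ofReal_ne_zero]
  intro h0
  apply h
  funext k
  have := (Finset.sum_eq_zero_iff_of_nonneg (fun k _ => Complex.normSq_nonneg (v k))).1 h0 k
    (Finset.mem_univ k)
  exact Complex.normSq_eq_zero.1 this

theorem nsq_smul {n : ℕ} (c : ℂ) (v : Fin (n + 1) → ℂ) :
    nsq (c • v) = c * (starRingEnd ℂ) c * nsq v := by
  simp only [nsq, Finset.mul_sum, Pi.smul_apply, smul_eq_mul, map_mul]
  exact Finset.sum_congr rfl fun k _ => by ring

/-- the projection matrix of a line -/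
noncomputable def hm {n : ℕ} (v : NZ n) (i j : Fin (n + 1)) : ℂ :=
  v.1 i * (starRingEnd ℂ) (v.1 j) / nsq v.1

theorem conj_ne {c : ℂ} (h : c ≠ 0) : (starRingEnd ℂ) c ≠ 0 := by
  simpa using h

theorem hm_congr {n : ℕ} (v w : NZ n) (h : ∃ c : ℂ, c ≠ 0 ∧ w.1 = c • v.1) : hm v = hm w := by
  obtain ⟨c, hc, h⟩ := h
  funext i j
  have h1 := nsq_ne v.2
  have h2 := conj_ne hc
  simp only [hm, h, nsq_smul, Pi.smul_apply, smul_eq_mul, map_mul]
  field_simp

/-- the projection matrix of a point of projective space -/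
noncomputable def HM {n : ℕ} : PN n → Fin (n + 1) → Fin (n + 1) → ℂ :=
  Quotient.lift hm fun v w h => hm_congr v w h

theorem HM_pt {n : ℕ} (v : NZ n) : HM (pt v) = hm v := rfl

theorem continuous_HM {n : ℕ} : Continuous (HM : PN n → Fin (n + 1) → Fin (n + 1) → ℂ) := by
  refine continuous_quot_lift (f := hm) _ ?_
  refine continuous_pi fun i => continuous_pi fun j => ?_
  have hv : ∀ i, Continuous fun v : NZ n => v.1 i := fun i =>
    (continuous_apply i).comp continuous_subtype_val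
  have hn : Continuous fun v : NZ n => nsq v.1 := by
    unfold nsq
    exact continuous_finsetSum _ fun k _ => (hv k).mul (Complex.continuous_conj.comp (hv k))
  exact ((hv i).mul (Complex.continuous_conj.comp (hv j))).div hn fun v => nsq_ne v.2

theorem HM_injective {n : ℕ} : Function.Injective (HM : PN n → Fin (n + 1) → Fin (n + 1) → ℂ) := by
  intro x y h
  obtain ⟨v, rfl⟩ := exists_pt x
  obtain ⟨w, rfl⟩ := exists_pt y
  rw [HM_pt, HM_pt] at h
  obtain ⟨j, hj⟩ := Function.ne_iff.1 w.2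
  have hwj : w.1 j ≠ 0 := hj
  have hwj' := conj_ne hwj
  have hnv := nsq_ne v.2
  have hnw := nsq_ne w.2
  have h1 : hm v j j = hm w j j := congrFun (congrFun h j) j
  have hvj : v.1 j ≠ 0 := by
    intro h0
    rw [hm, hm, h0, zero_mul, zero_div] at h1
    exact (div_ne_zero (mul_ne_zero hwj hwj') hnw) h1.symm
  have hvj' := conj_ne hvj
  refine Quotient.sound ⟨(starRingEnd ℂ) (v.1 j) * nsq w.1 /
    ((starRingEnd ℂ) (w.1 j) * nsq v.1), ?_, ?_⟩
  · exact div_ne_zero (mul_ne_zero hvj' hnw) (mul_ne_zero hwj' hnv)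
  · funext i
    have h2 : hm v i j = hm w i j := congrFun (congrFun h i) j
    rw [hm, hm, div_eq_div_iff hnv hnw] at h2
    rw [Pi.smul_apply, smul_eq_mul, div_mul_eq_mul_div, eq_div_iff (mul_ne_zero hwj' hnv)]
    linear_combination -h2

theorem pnt : T_PNT := by
  intro n
  constructor
  · -- compact
    have hne : ∀ v : Metric.sphere (0 : Fin (n + 1) → ℂ) 1, v.1 ≠ 0 := by
      intro v h0
      have := v.2
      rw [mem_sphere_zero_iff_norm, h0, norm_zero] at this
      norm_num at this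
    let s : Metric.sphere (0 : Fin (n + 1) → ℂ) 1 → PN n := fun v => pt ⟨v.1, hne v⟩
    have hs : Continuous s := continuous_pt.comp (continuous_subtype_val.subtype_mk _)
    have hsurj : Set.range s = univ := by
      rw [eq_univ_iff_forall]
      intro y
      obtain ⟨v, rfl⟩ := exists_pt y
      have hv : ‖v.1‖ ≠ 0 := norm_ne_zero_iff.2 v.2
      have hv' : ((‖v.1‖ : ℝ) : ℂ) ≠ 0 := Complex.ofReal_ne_zero.2 hv
      refine ⟨⟨((‖v.1‖ : ℝ) : ℂ)⁻¹ • v.1, ?_⟩, ?_⟩
      · rw [mem_sphere_zero_iff_norm, norm_smul, norm_inv, Complex.norm_real, norm_norm,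
          inv_mul_cancel₀ hv]
      · refine Quotient.sound ⟨((‖v.1‖ : ℝ) : ℂ), hv', ?_⟩
        change v.1 = _ • (_ • v.1)
        rw [smul_smul, mul_inv_cancel₀ hv', one_smul]
    refine ⟨?_⟩
    rw [← hsurj]
    exact isCompact_range hs
  · exact T2Space.of_injective_continuous HM_injective continuous_HM

end Pool.Agent.H24.LB
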