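import Pool.Agent.H64.LB.Targets
import Pool.Agent.H24.LB.PNT

/-!
# CHT: the affine chart is a homeomorphism
-/

open Topology Set Pool.Agent.H64.LB

namespace Pool.Agent.H24.LB

theorem rel_of_pt_eq {n : ℕ} {v w : NZ n} (h : pt v = pt w) : ∃ c : ℂ, c ≠ 0 ∧ w.1 = c • v.1 :=
  Quotient.exact h

theorem pt_eq_of_rel {n : ℕ} {v w : NZ n} (c : ℂ) (hc : c ≠ 0) (h : w.1 = c • v.1) :
    pt v = pt w := Quotient.sound ⟨c, hc, h⟩

theorem continuous_chart {N : ℕ} : Continuous (chart : (Fin N → ℂ) → PN N) := by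
  refine continuous_pt.comp (Continuous.subtype_mk ?_ _)
  refine continuous_pi fun i => ?_
  refine Fin.cases ?_ (fun i => ?_) i
  · simpa using continuous_const
  · simpa using continuous_apply i

theorem chart_injective {N : ℕ} : Function.Injective (chart : (Fin N → ℂ) → PN N) := by
  intro x y h
  obtain ⟨c, _, hcv⟩ := rel_of_pt_eq h
  have h0 : (1 : ℂ) = c * 1 := congrFun hcv 0
  rw [mul_one] at h0
  funext i
  have h1 : y i = c * x i := congrFun hcv i.succ
  rw [h1, ← h0, one_mul]

theorem isOpen_pt_iff {n : ℕ} {U : Set (PN n)} : IsOpen U ↔ IsOpen (pt ⁻¹' U : Set (NZ n)) :=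
  isOpen_coinduced

theorem isOpenMap_chart {N : ℕ} : IsOpenMap (chart : (Fin N → ℂ) → PN N) := by
  intro U hU
  rw [isOpen_pt_iff]
  let O : Set (NZ N) := {v | v.1 0 ≠ 0}
  have hO : IsOpen O := by
    have : Continuous fun v : NZ N => v.1 0 := (continuous_apply 0).comp continuous_subtype_val
    exact isOpen_ne.preimage this
  let g : NZ N → (Fin N → ℂ) := fun v i => v.1 i.succ / v.1 0
  have hg : ContinuousOn g O := by
    refine continuousOn_pi.2 fun i => ?_
    have h1 : Continuous fun v : NZ N => v.1 i.succ :=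
      (continuous_apply _).comp continuous_subtype_val
    have h2 : Continuous fun v : NZ N => v.1 0 := (continuous_apply 0).comp continuous_subtype_val
    exact h1.continuousOn.div h2.continuousOn fun v hv => hv
  have h1 := hg.isOpen_inter_preimage hO hU
  have h2 : (pt ⁻¹' (chart '' U) : Set (NZ N)) = O ∩ g ⁻¹' U := by
    ext v
    constructor
    · rintro ⟨x, hx, hxv⟩
      obtain ⟨c, hc, hcv⟩ := rel_of_pt_eq hxv
      have h0 : v.1 0 = c * 1 := congrFun hcv 0
      rw [mul_one] at h0
      have hv : v.1 0 ≠ 0 := by rw [h0]; exact hc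
      refine ⟨hv, ?_⟩
      have : g v = x := by
        funext i
        have h3 : v.1 i.succ = c * x i := congrFun hcv i.succ
        change v.1 i.succ / v.1 0 = x i
        rw [h3, h0, mul_div_cancel_left₀ _ hc]
      rw [mem_preimage, this]
      exact hx
    · rintro ⟨hv, hgv⟩
      exact ⟨g v, hgv, (exists_chart v hv).symm⟩
  rw [h2]
  exact h1

theorem isOpenEmbedding_chart {N : ℕ} : IsOpenEmbedding (chart : (Fin N → ℂ) → PN N) :=
  IsOpenEmbedding.of_continuous_injective_isOpenMap continuous_chart chart_injective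
    isOpenMap_chart

theorem cht : T_CHT := by
  intro N S
  have hemb : IsEmbedding (fun x : Zeros S => (chart x.1 : PN N)) :=
    isOpenEmbedding_chart.isEmbedding.comp IsEmbedding.subtypeVal
  have hr : Set.range (fun x : Zeros S => (chart x.1 : PN N)) = affSet N S := by
    ext y
    constructor
    · rintro ⟨x, rfl⟩
      exact ⟨x.1, x.2, rfl⟩
    · rintro ⟨x, hx, rfl⟩
      exact ⟨⟨x, hx⟩, rfl⟩
  refine ⟨hemb.toHomeomorph.trans (Homeomorph.setCongr hr), fun x => rfl⟩

end Pool.Agent.H24.LB
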