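import Pool.Agent.H64.LB.Targets
import Pool.Agent.H24.LB.CHT

/-!
# PL1: the eigenline map
-/

open Topology Set Pool.Agent.H64.LB

namespace Pool.Agent.H24.LB

theorem line_1 (z : QS) (h : z.1 2 + 1 ≠ 0)
    (hne : (![z.1 2 + 1, z.1 0 - Complex.I * z.1 1] : Fin 2 → ℂ) ≠ 0) :
    QS.line z = pt ⟨![z.1 2 + 1, z.1 0 - Complex.I * z.1 1], hne⟩ := by
  rw [QS.line, dif_pos h]

theorem QS_eq (z : QS) : z.1 0 ^ 2 + z.1 1 ^ 2 + z.1 2 ^ 2 = 1 := by
  have := z.2
  rwa [Fin.sum_univ_three] at this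

theorem line_2 (z : QS) (h : 1 - z.1 2 ≠ 0)
    (hne : (![z.1 0 + Complex.I * z.1 1, 1 - z.1 2] : Fin 2 → ℂ) ≠ 0) :
    QS.line z = pt ⟨![z.1 0 + Complex.I * z.1 1, 1 - z.1 2], hne⟩ := by
  by_cases h1 : z.1 2 + 1 ≠ 0
  · have hne1 : (![z.1 2 + 1, z.1 0 - Complex.I * z.1 1] : Fin 2 → ℂ) ≠ 0 := by
      intro h'
      exact h1 (congrFun h' 0)
    rw [line_1 z h1 hne1]
    have hq := QS_eq z
    have hI := Complex.I_mul_I
    have hc : z.1 0 + Complex.I * z.1 1 ≠ 0 := by
      intro h0
      have h2 : (z.1 2 + 1) * (1 - z.1 2) = 0 := by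
        have : (z.1 2 + 1) * (1 - z.1 2) =
            (z.1 0 + Complex.I * z.1 1) * (z.1 0 - Complex.I * z.1 1) := by
          linear_combination -hq + (z.1 1) ^ 2 * hI
        rw [this, h0, zero_mul]
      rcases mul_eq_zero.1 h2 with h3 | h3
      · exact h1 h3
      · exact h h3
    refine pt_eq_of_rel ((z.1 0 + Complex.I * z.1 1) / (z.1 2 + 1)) (div_ne_zero hc h1) ?_
    funext i
    fin_cases i
    · change z.1 0 + Complex.I * z.1 1 =
        (z.1 0 + Complex.I * z.1 1) / (z.1 2 + 1) * (z.1 2 + 1)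
      rw [div_mul_cancel₀ _ h1]
    · change 1 - z.1 2 =
        (z.1 0 + Complex.I * z.1 1) / (z.1 2 + 1) * (z.1 0 - Complex.I * z.1 1)
      rw [div_mul_eq_mul_div, eq_div_iff h1]
      linear_combination -hq + (z.1 1) ^ 2 * hI
  · rw [QS.line, dif_neg h1]

theorem continuous_line : Continuous QS.line := by
  have hc : ∀ i, Continuous fun z : QS => z.1 i := fun i =>
    (continuous_apply i).comp continuous_subtype_val
  let U1 : Set QS := {z | z.1 2 + 1 ≠ 0}
  let U2 : Set QS := {z | 1 - z.1 2 ≠ 0}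
  have hU1 : IsOpen U1 := isOpen_ne.preimage ((hc 2).add continuous_const)
  have hU2 : IsOpen U2 := isOpen_ne.preimage (continuous_const.sub (hc 2))
  have h1 : ContinuousOn QS.line U1 := by
    rw [continuousOn_iff_continuous_domRestrict]
    have hne : ∀ z : U1, (![z.1.1 2 + 1, z.1.1 0 - Complex.I * z.1.1 1] : Fin 2 → ℂ) ≠ 0 :=
      fun z h' => z.2 (congrFun h' 0)
    have heq : U1.domRestrict QS.line = fun z : U1 =>
        pt ⟨![z.1.1 2 + 1, z.1.1 0 - Complex.I * z.1.1 1], hne z⟩ := by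
      funext z
      exact line_1 z.1 z.2 (hne z)
    rw [heq]
    refine continuous_pt.comp (Continuous.subtype_mk ?_ _)
    refine continuous_pi fun i => ?_
    fin_cases i
    · exact ((hc 2).add continuous_const).comp continuous_subtype_val
    · exact ((hc 0).sub (continuous_const.mul (hc 1))).comp continuous_subtype_val
  have h2 : ContinuousOn QS.line U2 := by
    rw [continuousOn_iff_continuous_domRestrict]
    have hne : ∀ z : U2, (![z.1.1 0 + Complex.I * z.1.1 1, 1 - z.1.1 2] : Fin 2 → ℂ) ≠ 0 :=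
      fun z h' => z.2 (congrFun h' 1)
    have heq : U2.domRestrict QS.line = fun z : U2 =>
        pt ⟨![z.1.1 0 + Complex.I * z.1.1 1, 1 - z.1.1 2], hne z⟩ := by
      funext z
      exact line_2 z.1 z.2 (hne z)
    rw [heq]
    refine continuous_pt.comp (Continuous.subtype_mk ?_ _)
    refine continuous_pi fun i => ?_
    fin_cases i
    · exact ((hc 0).add (continuous_const.mul (hc 1))).comp continuous_subtype_val
    · exact (continuous_const.sub (hc 2)).comp continuous_subtype_val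
  rw [continuous_iff_continuousAt]
  intro z
  by_cases hz : z.1 2 + 1 = 0
  · have hz2 : z ∈ U2 := by
      intro h0
      have : (2 : ℂ) = 0 := by linear_combination hz + h0
      norm_num at this
    exact h2.continuousAt (hU2.mem_nhds hz2)
  · exact h1.continuousAt (hU1.mem_nhds hz)

theorem HM_line (x : S2) : HM (QS.line (S2.toQS x)) 0 0 = ((x.1 2 : ℂ) + 1) / 2 ∧
    HM (QS.line (S2.toQS x)) 1 0 = ((x.1 0 : ℂ) - Complex.I * (x.1 1 : ℂ)) / 2 := by
  have hq : (x.1 0 : ℂ) ^ 2 + (x.1 1 : ℂ) ^ 2 + (x.1 2 : ℂ) ^ 2 = 1 := QS_eq (S2.toQS x)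
  have hI := Complex.I_mul_I
  by_cases h : (x.1 2 : ℂ) + 1 = 0
  · have h2 : 1 - (x.1 2 : ℂ) ≠ 0 := by
      intro h0
      have : (2 : ℂ) = 0 := by linear_combination h + h0
      norm_num at this
    have hne : (![(x.1 0 : ℂ) + Complex.I * (x.1 1 : ℂ), 1 - (x.1 2 : ℂ)] : Fin 2 → ℂ) ≠ 0 :=
      fun h' => h2 (congrFun h' 1)
    have h3 : QS.line (S2.toQS x) =
        pt ⟨![(x.1 0 : ℂ) + Complex.I * (x.1 1 : ℂ), 1 - (x.1 2 : ℂ)], hne⟩ :=
      line_2 (S2.toQS x) h2 hne
    rw [h3, HM_pt]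
    have hn : nsq (![(x.1 0 : ℂ) + Complex.I * (x.1 1 : ℂ), 1 - (x.1 2 : ℂ)] : Fin 2 → ℂ) =
        2 * (1 - (x.1 2 : ℂ)) := by
      rw [nsq, Fin.sum_univ_two]
      simp only [Matrix.cons_val_zero, Matrix.cons_val_one, map_add, map_sub, map_mul, map_one,
        Complex.conj_ofReal, Complex.conj_I]
      linear_combination hq - (x.1 1 : ℂ) ^ 2 * hI
    constructor
    · rw [hm, hn, div_eq_div_iff (mul_ne_zero two_ne_zero h2) two_ne_zero]
      simp only [Matrix.cons_val_zero, map_add, map_mul,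
        Complex.conj_ofReal, Complex.conj_I]
      linear_combination 2 * hq - 2 * (x.1 1 : ℂ) ^ 2 * hI
    · rw [hm, hn, div_eq_div_iff (mul_ne_zero two_ne_zero h2) two_ne_zero]
      simp only [Matrix.cons_val_zero, Matrix.cons_val_one, map_add, map_mul,
        Complex.conj_ofReal, Complex.conj_I]
      ring
  · have hne : (![(x.1 2 : ℂ) + 1, (x.1 0 : ℂ) - Complex.I * (x.1 1 : ℂ)] : Fin 2 → ℂ) ≠ 0 :=
      fun h' => h (congrFun h' 0)
    have h3 : QS.line (S2.toQS x) =
        pt ⟨![(x.1 2 : ℂ) + 1, (x.1 0 : ℂ) - Complex.I * (x.1 1 : ℂ)], hne⟩ :=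
      line_1 (S2.toQS x) h hne
    rw [h3, HM_pt]
    have hn : nsq (![(x.1 2 : ℂ) + 1, (x.1 0 : ℂ) - Complex.I * (x.1 1 : ℂ)] : Fin 2 → ℂ) =
        2 * ((x.1 2 : ℂ) + 1) := by
      rw [nsq, Fin.sum_univ_two]
      simp only [Matrix.cons_val_zero, Matrix.cons_val_one, map_add, map_sub, map_mul, map_one,
        Complex.conj_ofReal, Complex.conj_I]
      linear_combination hq - (x.1 1 : ℂ) ^ 2 * hI
    constructor
    · rw [hm, hn, div_eq_div_iff (mul_ne_zero two_ne_zero h) two_ne_zero]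
      simp only [Matrix.cons_val_zero, map_add, map_one, Complex.conj_ofReal]
      ring
    · rw [hm, hn, div_eq_div_iff (mul_ne_zero two_ne_zero h) two_ne_zero]
      simp only [Matrix.cons_val_zero, Matrix.cons_val_one, map_add, map_one,
        Complex.conj_ofReal]
      ring

/-- on the projective line two entries of the projection matrix are enough -/
theorem HM_ext {p q : PN 1} (h0 : HM p 0 0 = HM q 0 0) (h1 : HM p 1 0 = HM q 1 0) : p = q := by
  apply HM_injective
  have hconj : ∀ r : PN 1, HM r 0 1 = (starRingEnd ℂ) (HM r 1 0) := by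
    intro r
    obtain ⟨v, rfl⟩ := exists_pt r
    rw [HM_pt, hm, hm, map_div₀, map_mul, Complex.conj_conj, nsq_eq, Complex.conj_ofReal,
      mul_comm]
  have htr : ∀ r : PN 1, HM r 1 1 = 1 - HM r 0 0 := by
    intro r
    obtain ⟨v, rfl⟩ := exists_pt r
    have hn := nsq_ne v.2
    rw [HM_pt, hm, hm, eq_sub_iff_add_eq, ← add_div, div_eq_one_iff_eq hn, nsq,
      Fin.sum_univ_two, add_comm]
  funext i j
  fin_cases i <;> fin_cases j
  · exact h0
  · change HM p 0 1 = HM q 0 1
    rw [hconj, hconj, h1]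
  · exact h1
  · change HM p 1 1 = HM q 1 1
    rw [htr, htr, h0]

theorem compact_S2 : CompactSpace S2 := by
  have hc : IsCompact {x : Fin 3 → ℝ | ∑ i, x i ^ 2 = 1} := by
    apply Metric.isCompact_of_isClosed_isBounded
    · exact isClosed_eq (continuous_finsetSum _ fun i _ => (continuous_apply i).pow 2)
        continuous_const
    · rw [isBounded_iff_forall_norm_le]
      refine ⟨1, fun x hx => ?_⟩
      rw [pi_norm_le_iff_of_nonneg zero_le_one]
      intro i
      have h1 : x i ^ 2 ≤ 1 := by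
        have h2 : ∑ i, x i ^ 2 = 1 := hx
        rw [← h2]
        exact Finset.single_le_sum (f := fun i => x i ^ 2) (fun j _ => sq_nonneg (x j))
          (Finset.mem_univ i)
      rw [Real.norm_eq_abs]
      exact (sq_le_one_iff_abs_le_one _).1 h1
  exact isCompact_iff_compactSpace.1 hc

theorem pl1 : T_PL1 := by
  refine ⟨continuous_line, ?_⟩
  have := (pnt 1).1
  have := (pnt 1).2
  have := compact_S2
  have hinj : Function.Injective fun x : S2 => QS.line (S2.toQS x) := by
    intro x y h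
    have h' : QS.line (S2.toQS x) = QS.line (S2.toQS y) := h
    obtain ⟨a0, a1⟩ := HM_line x
    obtain ⟨b0, b1⟩ := HM_line y
    rw [h', b0] at a0
    rw [h', b1] at a1
    have c2 : y.1 2 = x.1 2 := by
      have : (y.1 2 : ℂ) = (x.1 2 : ℂ) := by linear_combination 2 * a0
      exact_mod_cast this
    have c01 : (y.1 0 : ℂ) - Complex.I * (y.1 1 : ℂ) = (x.1 0 : ℂ) - Complex.I * (x.1 1 : ℂ) := by
      linear_combination 2 * a1
    have c0 := congrArg Complex.re c01
    have c1 := congrArg Complex.im c01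
    simp at c0 c1
    apply Subtype.ext
    funext i
    fin_cases i
    · exact c0.symm
    · exact c1.symm
    · exact c2.symm
  have hsurj : Function.Surjective fun x : S2 => QS.line (S2.toQS x) := by
    intro p
    obtain ⟨v, rfl⟩ := exists_pt p
    let n : ℝ := Complex.normSq (v.1 0) + Complex.normSq (v.1 1)
    have hn : nsq v.1 = (n : ℂ) := by
      rw [nsq_eq, Fin.sum_univ_two]
    have hn0 : n ≠ 0 := by
      have := nsq_ne v.2
      rw [hn] at this
      exact Complex.ofReal_ne_zero.1 this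
    have hnc : (n : ℂ) ≠ 0 := Complex.ofReal_ne_zero.2 hn0
    let w : ℂ := 2 * v.1 1 * (starRingEnd ℂ) (v.1 0) / n
    have hw : Complex.normSq w = 4 * Complex.normSq (v.1 0) * Complex.normSq (v.1 1) / n ^ 2 := by
      simp only [w, map_div₀, map_mul, Complex.normSq_conj, Complex.normSq_ofReal,
        Complex.normSq_ofNat]
      ring
    let x : Fin 3 → ℝ := ![w.re, -w.im,
      (Complex.normSq (v.1 0) - Complex.normSq (v.1 1)) / n]
    have hx : ∑ i, x i ^ 2 = 1 := by
      rw [Fin.sum_univ_three]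
      change w.re ^ 2 + (-w.im) ^ 2 +
        ((Complex.normSq (v.1 0) - Complex.normSq (v.1 1)) / n) ^ 2 = 1
      have h1 : w.re ^ 2 + (-w.im) ^ 2 = Complex.normSq w := by
        rw [Complex.normSq_apply]; ring
      rw [h1, hw]
      field_simp
      simp only [n]
      ring
    refine ⟨⟨x, hx⟩, ?_⟩
    obtain ⟨a0, a1⟩ := HM_line ⟨x, hx⟩
    apply HM_ext
    · refine a0.trans ?_
      rw [HM_pt, hm, hn, Complex.mul_conj]
      change ((((Complex.normSq (v.1 0) - Complex.normSq (v.1 1)) / n : ℝ) : ℂ) + 1) / 2 = _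
      rw [← Complex.ofReal_div, ← Complex.ofReal_one, ← Complex.ofReal_add]
      have h2 : (2 : ℂ) = ((2 : ℝ) : ℂ) := by norm_num
      rw [h2, ← Complex.ofReal_div]
      congr 1
      field_simp
      simp only [n]
      ring
    · refine a1.trans ?_
      rw [HM_pt, hm, hn]
      change ((w.re : ℂ) - Complex.I * ((-w.im : ℝ) : ℂ)) / 2 = _
      have h3 : (w.re : ℂ) - Complex.I * ((-w.im : ℝ) : ℂ) = w := by
        conv_rhs => rw [← Complex.re_add_im w]
        push_cast
        ring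
      rw [h3]
      simp only [w]
      field_simp
  have hc : Continuous fun x : S2 => QS.line (S2.toQS x) :=
    continuous_line.comp S2.toQS.continuous
  let e : S2 ≃ PN 1 := Equiv.ofBijective _ ⟨hinj, hsurj⟩
  have he : Continuous e := hc
  exact ⟨he.homeoOfEquivCompactToT2, fun x => rfl⟩

end Pool.Agent.H24.LB
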