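import Pool.Agent.H64.LB.Targets
import Pool.Agent.H24.LB.CHT

/-!
# RGA: polynomial maps of affine varieties are morphisms
-/

open Topology Set Pool.Agent.H64.LB MvPolynomial

namespace Pool.Agent.H24.LB

theorem eval_hmg {N : ℕ} {d : ℕ} {f : MvPolynomial (Fin N) ℂ} (hd : f.totalDegree ≤ d)
    (v : Fin (N + 1) → ℂ) (h : v 0 ≠ 0) :
    eval v (hmg d f) = v 0 ^ d * eval (fun i => v i.succ / v 0) f := by
  have h1 : v = v 0 • (Fin.cons 1 (fun i => v i.succ / v 0) : Fin (N + 1) → ℂ) := by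
    funext i
    refine Fin.cases ?_ (fun i => ?_) i
    · simp
    · simp only [Pi.smul_apply, Fin.cons_succ, smul_eq_mul]
      rw [mul_div_cancel₀ _ h]
  conv_lhs => rw [h1]
  rw [eval_smul_homog (hmg_homog hd), hmg_eval]

theorem mem_of_chart_mem {N : ℕ} {S : Finset (MvPolynomial (Fin N) ℂ)} {x : Fin N → ℂ}
    (hx : chart x ∈ affSet N S) : ∀ f ∈ S, eval x f = 0 := by
  obtain ⟨x', hx', h⟩ := hx
  rw [chart_injective h]
  exact hx'

theorem eval_Xd {N : ℕ} (d : ℕ) (v : Fin (N + 1) → ℂ) :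
    eval v (X 0 ^ d : Pol N) = v 0 ^ d * 1 := by
  rw [map_pow, eval_X, mul_one]

theorem rga : T_RGA := by
  intro N M S S' G hG
  obtain ⟨e, he⟩ := cht N S
  obtain ⟨e', he'⟩ := cht M S'
  let P : Zeros S → Zeros S' := fun x => ⟨fun i => eval x.1 (G i), hG x.1 x.2⟩
  have hP : Continuous P := by
    refine Continuous.subtype_mk (continuous_pi fun i => ?_) _
    exact (MvPolynomial.continuous_eval (G i)).comp continuous_subtype_val
  let F : C(affSet N S, affSet M S') :=
    ⟨fun y => e' (P (e.symm y)), e'.continuous.comp (hP.comp e.symm.continuous)⟩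
  have hF : ∀ (x : Fin N → ℂ) (hx : chart x ∈ affSet N S),
      (F ⟨chart x, hx⟩).1 = (chart (fun i => eval x (G i)) : PN M) := by
    intro x hx
    have hx' := mem_of_chart_mem hx
    have h1 : (⟨chart x, hx⟩ : affSet N S) = e ⟨x, hx'⟩ := Subtype.ext (he ⟨x, hx'⟩).symm
    rw [h1]
    change ((e' (P (e.symm (e ⟨x, hx'⟩))) : affSet M S') : PN M) = _
    rw [e.symm_apply_apply, he']
  refine ⟨⟨F, ?_⟩, hF⟩
  intro v₀ hv₀
  have hv0 : v₀.1 0 ≠ 0 := by
    obtain ⟨x, _, h⟩ := hv₀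
    obtain ⟨c, hc, h'⟩ := rel_of_pt_eq (h.symm : pt _ = pt v₀)
    have : v₀.1 0 = c * 1 := congrFun h' 0
    rw [this, mul_one]
    exact hc
  let d : ℕ := Finset.univ.sup fun i => (G i).totalDegree
  have hd : ∀ i, (G i).totalDegree ≤ d := fun i =>
    Finset.le_sup (f := fun i => (G i).totalDegree) (Finset.mem_univ i)
  refine ⟨d, (Fin.cons (X 0 ^ d) (fun i => hmg d (G i)) : Fin (M + 1) → Pol N), X 0, ?_,
    ⟨1, isHomogeneous_X _ _⟩, ?_, ?_⟩
  · intro i
    refine Fin.cases ?_ (fun i => ?_) i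
    · exact isHomogeneous_X_pow _ _
    · exact hmg_homog (hd i)
  · rw [eval_X]
    exact hv0
  · intro v hv hg
    rw [eval_X] at hg
    let x : Fin N → ℂ := fun i => v.1 i.succ / v.1 0
    have hvec : (fun i => eval v.1 ((Fin.cons (X 0 ^ d) (fun i => hmg d (G i)) :
        Fin (M + 1) → Pol N) i)) =
        v.1 0 ^ d • (Fin.cons 1 (fun i => eval x (G i)) : Fin (M + 1) → ℂ) := by
      funext i
      refine Fin.cases ?_ (fun i => ?_) i
      · exact eval_Xd d v.1
      · exact eval_hmg (hd i) v.1 hg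
    have hne : (fun i => eval v.1 ((Fin.cons (X 0 ^ d) (fun i => hmg d (G i)) :
        Fin (M + 1) → Pol N) i)) ≠ 0 := by
      rw [hvec]
      refine smul_ne_zero (pow_ne_zero _ hg) ?_
      intro h
      simpa using congrFun h 0
    refine ⟨hne, ?_⟩
    have h1 : pt v = chart x := exists_chart v hg
    have hx : chart x ∈ affSet N S := by rw [← h1]; exact hv
    have h2 : (⟨pt v, hv⟩ : affSet N S) = ⟨chart x, hx⟩ := Subtype.ext h1
    have h3 := hF x hx
    rw [← h2] at h3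
    refine h3.trans ?_
    exact pt_eq_of_rel (v.1 0 ^ d) (pow_ne_zero _ hg) hvec

end Pool.Agent.H24.LB
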