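import Pool.Agent.H64.LB.Targets
import Pool.Agent.H24.LB.RGA

/-!
# RGG: the morphism to the symmetric square
-/

open Topology Set Pool.Agent.H64.LB MvPolynomial

namespace Pool.Agent.H24.LB

/-- the vector of `mulV` -/
noncomputable def yv : Fin 4 → MvPolynomial (Fin 5) ℂ := ![X 0, X 1 * X 2, X 1 * X 3, X 1 * X 4]

theorem eval_yv (p : VV 1 × QS) (i : Fin 4) : eval (ptDQ p) (yv i) = vec4 (mulV p) i := by
  fin_cases i
  · change eval (ptDQ p) (X 0) = p.1.1.1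
    rw [eval_X]; rfl
  · change eval (ptDQ p) (X 1 * X 2) = p.1.1.2 0 * p.2.1 0
    rw [map_mul, eval_X, eval_X]; rfl
  · change eval (ptDQ p) (X 1 * X 3) = p.1.1.2 0 * p.2.1 1
    rw [map_mul, eval_X, eval_X]; rfl
  · change eval (ptDQ p) (X 1 * X 4) = p.1.1.2 0 * p.2.1 2
    rw [map_mul, eval_X, eval_X]; rfl

/-- the components of the morphism -/
noncomputable def GG (k : Fin 20) : MvPolynomial (Fin 5) ℂ :=
  if h : (k : ℕ) < 4 then yv ⟨k, h⟩ + C (vec4 (VV.base 3) ⟨k, h⟩)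
  else (yv ⟨((k : ℕ) - 4) / 4, by omega⟩ - C (vec4 (VV.base 3) ⟨((k : ℕ) - 4) / 4, by omega⟩)) *
    (yv ⟨((k : ℕ) - 4) % 4, by omega⟩ - C (vec4 (VV.base 3) ⟨((k : ℕ) - 4) % 4, by omega⟩))

theorem eval_GG (p : VV 1 × QS) :
    (fun k => eval (ptDQ p) (GG k)) = ptXX (mulV p) (VV.base 3) := by
  funext k
  rw [GG, ptXX]
  split_ifs with h
  · rw [map_add, eval_yv, eval_C]
  · rw [map_mul, map_sub, map_sub, eval_yv, eval_yv, eval_C, eval_C]

theorem rgg (hxx : T_XX) : T_RGG := by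
  classical
  obtain ⟨e, he⟩ := hxx
  obtain ⟨f, hf⟩ := rga 5 20 SDQ SXX GG (by
    intro x hx
    have h1 : x 0 ^ 3 + x 1 ^ 2 = 1 := by
      have := hx (X 0 ^ 3 + X 1 ^ 2 - 1) (by rw [SDQ]; simp)
      simp only [map_sub, map_add, map_pow, eval_X, map_one] at this
      exact sub_eq_zero.1 this
    have h2 : x 2 ^ 2 + x 3 ^ 2 + x 4 ^ 2 = 1 := by
      have := hx (X 2 ^ 2 + X 3 ^ 2 + X 4 ^ 2 - 1) (by rw [SDQ]; simp)
      simp only [map_sub, map_add, map_pow, eval_X, map_one] at this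
      exact sub_eq_zero.1 this
    let p : VV 1 × QS := (⟨(x 0, fun _ => x 1), by simpa using h1⟩,
      ⟨![x 2, x 3, x 4], by rw [Fin.sum_univ_three]; exact h2⟩)
    have hp : x = ptDQ p := by
      funext i
      fin_cases i <;> rfl
    rw [hp, eval_GG, ← he]
    exact (e (SP.mk ![mulV p, VV.base 3])).2)
  refine ⟨f, fun p hp => ?_⟩
  refine (hf (ptDQ p) hp).trans ?_
  rw [eval_GG]

end Pool.Agent.H24.LB
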