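import Pool.Agent.H64.LB.Targets
import Pool.Agent.H24.LB.PL1

/-!
# SEG: the Segre embedding of the product of the elliptic curve and the projective line
-/

open Topology Set Pool.Agent.H64.LB MvPolynomial

namespace Pool.Agent.H24.LB

theorem isOpenMap_pt {n : ℕ} : IsOpenMap (pt : NZ n → PN n) := by
  intro U hU
  rw [isOpen_pt_iff]
  have h : (pt ⁻¹' (pt '' U) : Set (NZ n)) =
      ⋃ c : {c : ℂ // c ≠ 0}, (fun w : NZ n =>
        (⟨c.1 • w.1, smul_ne_zero c.2 w.2⟩ : NZ n)) ⁻¹' U := by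
    ext w
    constructor
    · rintro ⟨v, hv, hvw⟩
      obtain ⟨c, hc, h⟩ := rel_of_pt_eq hvw
      refine mem_iUnion.2 ⟨⟨c⁻¹, inv_ne_zero hc⟩, ?_⟩
      have : (⟨c⁻¹ • w.1, smul_ne_zero (inv_ne_zero hc) w.2⟩ : NZ n) = v := by
        apply Subtype.ext
        change c⁻¹ • w.1 = v.1
        rw [h, smul_smul, inv_mul_cancel₀ hc, one_smul]
      rw [mem_preimage, this]
      exact hv
    · intro hw
      obtain ⟨c, hc⟩ := mem_iUnion.1 hw
      exact ⟨_, hc, (pt_eq_of_rel c.1 c.2 rfl).symm⟩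
  rw [h]
  refine isOpen_iUnion fun c => hU.preimage ?_
  exact (continuous_subtype_val.const_smul c.1).subtype_mk _

theorem isOpenQuotientMap_pt {n : ℕ} : IsOpenQuotientMap (pt : NZ n → PN n) :=
  ⟨fun y => exists_pt y, continuous_pt, isOpenMap_pt⟩

theorem segre_sg (x : NZ 2) (y : NZ 1) (i : Fin 3) (j : Fin 2) :
    (segre x y).1 (sg i j) = x.1 i * y.1 j := by
  have e1 : (⟨((sg i j : Fin 6) : ℕ) / 2, by omega⟩ : Fin 3) = i := by
    apply Fin.ext
    change (2 * (i : ℕ) + j) / 2 = i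
    omega
  have e2 : (⟨((sg i j : Fin 6) : ℕ) % 2, by omega⟩ : Fin 2) = j := by
    apply Fin.ext
    change (2 * (i : ℕ) + j) % 2 = j
    omega
  change x.1 ⟨((sg i j : Fin 6) : ℕ) / 2, _⟩ * y.1 ⟨((sg i j : Fin 6) : ℕ) % 2, _⟩ = _
  rw [e1, e2]

theorem exists_sg (k : Fin 6) : ∃ i j, k = sg i j := by
  refine ⟨⟨(k : ℕ) / 2, by omega⟩, ⟨(k : ℕ) % 2, by omega⟩, ?_⟩
  apply Fin.ext
  change (k : ℕ) = 2 * ((k : ℕ) / 2) + (k : ℕ) % 2
  omega

/-- the Segre map on points -/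
def Sgr : PN 2 → PN 1 → PN 5 :=
  Quotient.lift₂ (fun v w => pt (segre v w)) (by
    intro v w v' w' h h'
    obtain ⟨c, hc, h⟩ := h
    obtain ⟨d, hd, h'⟩ := h'
    refine pt_eq_of_rel (c * d) (mul_ne_zero hc hd) ?_
    funext k
    obtain ⟨i, j, rfl⟩ := exists_sg k
    rw [Pi.smul_apply, segre_sg, segre_sg, h, h', Pi.smul_apply, Pi.smul_apply]
    simp only [smul_eq_mul]
    ring)

theorem Sgr_pt (v : NZ 2) (w : NZ 1) : Sgr (pt v) (pt w) = pt (segre v w) := rfl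

theorem continuous_Sgr : Continuous fun p : PN 2 × PN 1 => Sgr p.1 p.2 := by
  have hq : IsQuotientMap (Prod.map (pt : NZ 2 → PN 2) (pt : NZ 1 → PN 1)) :=
    (isOpenQuotientMap_pt.prodMap isOpenQuotientMap_pt).isQuotientMap
  rw [hq.continuous_iff]
  have : (fun p : PN 2 × PN 1 => Sgr p.1 p.2) ∘ (Prod.map (pt : NZ 2 → PN 2) (pt : NZ 1 → PN 1)) =
      fun p : NZ 2 × NZ 1 => pt (segre p.1 p.2) := rfl
  rw [this]
  refine continuous_pt.comp (Continuous.subtype_mk ?_ _)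
  refine continuous_pi fun k => ?_
  exact ((continuous_apply _).comp (continuous_subtype_val.comp continuous_fst)).mul
    ((continuous_apply _).comp (continuous_subtype_val.comp continuous_snd))

theorem mem_EPset_pt (w : NZ 5) : pt w ∈ EPset ↔
    (∀ i k, w.1 (sg i 0) * w.1 (sg k 1) = w.1 (sg i 1) * w.1 (sg k 0)) ∧
    (∀ j, w.1 (sg 0 j) ^ 3 + w.1 (sg 1 j) ^ 2 * w.1 (sg 2 j) = w.1 (sg 2 j) ^ 3) := by
  classical
  constructor
  · intro h
    constructor
    · intro i k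
      have hm : (X (sg i 0) * X (sg k 1) - X (sg i 1) * X (sg k 0) : Pol 5) ∈ SEP := by
        rw [SEP, Finset.mem_union]
        exact Or.inl (Finset.mem_image.2 ⟨(i, k), Finset.mem_univ _, rfl⟩)
      have h1 := (van_pt_iff (SEP_homog _ hm) w).1 (h _ hm)
      simp only [map_sub, map_mul, eval_X] at h1
      exact sub_eq_zero.1 h1
    · intro j
      have hm : (X (sg 0 j) ^ 3 + X (sg 1 j) ^ 2 * X (sg 2 j) - X (sg 2 j) ^ 3 : Pol 5) ∈ SEP := by
        rw [SEP, Finset.mem_union]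
        exact Or.inr (Finset.mem_image.2 ⟨j, Finset.mem_univ _, rfl⟩)
      have h1 := (van_pt_iff (SEP_homog _ hm) w).1 (h _ hm)
      simp only [map_sub, map_add, map_mul, map_pow, eval_X] at h1
      exact sub_eq_zero.1 h1
  · rintro ⟨h1, h2⟩ f hf
    rw [van_pt_iff (SEP_homog _ hf)]
    rw [SEP, Finset.mem_union] at hf
    rcases hf with hf | hf
    · obtain ⟨k, _, rfl⟩ := Finset.mem_image.1 hf
      simp only [map_sub, map_mul, eval_X]
      exact sub_eq_zero.2 (h1 _ _)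
    · obtain ⟨j, _, rfl⟩ := Finset.mem_image.1 hf
      simp only [map_sub, map_add, map_mul, map_pow, eval_X]
      exact sub_eq_zero.2 (h2 j)

/-- the equation of the elliptic curve is invariant -/
theorem EC_inv {v w : NZ 2} (h : pt v = pt w)
    (hv : v.1 0 ^ 3 + v.1 1 ^ 2 * v.1 2 = v.1 2 ^ 3) :
    w.1 0 ^ 3 + w.1 1 ^ 2 * w.1 2 = w.1 2 ^ 3 := by
  obtain ⟨c, _, h⟩ := rel_of_pt_eq h
  rw [h]
  simp only [Pi.smul_apply, smul_eq_mul]
  linear_combination c ^ 3 * hv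

theorem compact_EC : CompactSpace EC := by
  have := (pnt 2).1
  have hc : IsClosed {x : PN 2 | ∀ v : NZ 2, pt v = x → v.1 0 ^ 3 + v.1 1 ^ 2 * v.1 2 = v.1 2 ^ 3} := by
    rw [← isOpenQuotientMap_pt.isQuotientMap.isClosed_preimage]
    have h : (pt ⁻¹' {x : PN 2 | ∀ v : NZ 2, pt v = x →
        v.1 0 ^ 3 + v.1 1 ^ 2 * v.1 2 = v.1 2 ^ 3} : Set (NZ 2)) =
        {v | v.1 0 ^ 3 + v.1 1 ^ 2 * v.1 2 = v.1 2 ^ 3} := by
      ext v
      constructor
      · intro hv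
        exact hv v rfl
      · intro hv w hw
        exact EC_inv hw.symm hv
    rw [h]
    have hv : ∀ i, Continuous fun v : NZ 2 => v.1 i := fun i =>
      (continuous_apply i).comp continuous_subtype_val
    exact isClosed_eq (((hv 0).pow 3).add (((hv 1).pow 2).mul (hv 2))) ((hv 2).pow 3)
  exact isCompact_iff_compactSpace.1 hc.isCompact

theorem seg : T_SEG := by
  have := (pnt 1).1
  have := (pnt 5).2
  have := compact_EC
  have hmem : ∀ p : EC × PN 1, Sgr p.1.1 p.2 ∈ EPset := by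
    rintro ⟨⟨x, hx⟩, y⟩
    obtain ⟨v, rfl⟩ := exists_pt x
    obtain ⟨w, rfl⟩ := exists_pt y
    have hv := hx v rfl
    change Sgr (pt v) (pt w) ∈ EPset
    rw [Sgr_pt, mem_EPset_pt]
    simp only [segre_sg]
    constructor
    · intro i k; ring
    · intro j
      linear_combination (w.1 j) ^ 3 * hv
  let F : EC × PN 1 → EPset := fun p => ⟨Sgr p.1.1 p.2, hmem p⟩
  have hF : Continuous F := by
    refine Continuous.subtype_mk ?_ _
    exact continuous_Sgr.comp ((continuous_subtype_val.comp continuous_fst).prodMk continuous_snd)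
  have hinj : Function.Injective F := by
    rintro ⟨⟨x, hx⟩, y⟩ ⟨⟨x', hx'⟩, y'⟩ h
    obtain ⟨v, rfl⟩ := exists_pt x
    obtain ⟨w, rfl⟩ := exists_pt y
    obtain ⟨v', rfl⟩ := exists_pt x'
    obtain ⟨w', rfl⟩ := exists_pt y'
    have h1 : pt (segre v w) = pt (segre v' w') := congrArg Subtype.val h
    obtain ⟨c, hc, h2⟩ := rel_of_pt_eq h1
    have h3 : ∀ i j, v'.1 i * w'.1 j = c * (v.1 i * w.1 j) := by
      intro i j
      rw [← segre_sg, ← segre_sg, h2]
      rfl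
    obtain ⟨i0, hi0⟩ := Function.ne_iff.1 v.2
    obtain ⟨j0, hj0⟩ := Function.ne_iff.1 w.2
    have hi0' : v.1 i0 ≠ 0 := hi0
    have hj0' : w.1 j0 ≠ 0 := hj0
    have h4 : v'.1 i0 * w'.1 j0 ≠ 0 := by
      rw [h3]
      exact mul_ne_zero hc (mul_ne_zero hi0' hj0')
    have h5 : v'.1 i0 ≠ 0 := left_ne_zero_of_mul h4
    have h6 : w'.1 j0 ≠ 0 := right_ne_zero_of_mul h4
    have e1 : pt v = pt v' := by
      refine pt_eq_of_rel (c * w.1 j0 / w'.1 j0) (div_ne_zero (mul_ne_zero hc hj0') h6) ?_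
      funext i
      rw [Pi.smul_apply, smul_eq_mul, div_mul_eq_mul_div, eq_div_iff h6, h3]
      ring
    have e2 : pt w = pt w' := by
      refine pt_eq_of_rel (c * v.1 i0 / v'.1 i0) (div_ne_zero (mul_ne_zero hc hi0') h5) ?_
      funext j
      rw [Pi.smul_apply, smul_eq_mul, div_mul_eq_mul_div, eq_div_iff h5, mul_comm (w'.1 j), h3]
      ring
    apply Prod.ext
    · exact Subtype.ext e1
    · exact e2
  have hsurj : Function.Surjective F := by
    rintro ⟨z, hz⟩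
    obtain ⟨w, rfl⟩ := exists_pt z
    obtain ⟨hm, hcub⟩ := (mem_EPset_pt w).1 hz
    obtain ⟨k, hk⟩ := Function.ne_iff.1 w.2
    obtain ⟨i0, j0, rfl⟩ := exists_sg k
    have hk' : w.1 (sg i0 j0) ≠ 0 := hk
    have hgen : ∀ i k j l, w.1 (sg i j) * w.1 (sg k l) = w.1 (sg i l) * w.1 (sg k j) := by
      intro i k j l
      fin_cases j <;> fin_cases l
      · rfl
      · exact hm i k
      · exact (hm i k).symm
      · rfl
    have hx : (fun i => w.1 (sg i j0)) ≠ 0 := fun h => hk' (congrFun h i0)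
    have hy : (fun j => w.1 (sg i0 j) / w.1 (sg i0 j0)) ≠ 0 := fun h => by
      have := congrFun h j0
      simp only [Pi.zero_apply, div_self hk'] at this
      exact one_ne_zero this
    have hEC : ∀ v : NZ 2, pt v = pt ⟨_, hx⟩ → v.1 0 ^ 3 + v.1 1 ^ 2 * v.1 2 = v.1 2 ^ 3 :=
      fun v hv => EC_inv hv.symm (hcub j0)
    refine ⟨(⟨pt ⟨_, hx⟩, hEC⟩, pt ⟨_, hy⟩), ?_⟩
    apply Subtype.ext
    change Sgr (pt ⟨_, hx⟩) (pt ⟨_, hy⟩) = pt w
    rw [Sgr_pt]
    congr 1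
    apply Subtype.ext
    funext k
    obtain ⟨i, j, rfl⟩ := exists_sg k
    rw [segre_sg]
    change w.1 (sg i j0) * (w.1 (sg i0 j) / w.1 (sg i0 j0)) = _
    rw [mul_div_assoc', div_eq_iff hk']
    exact hgen _ _ _ _
  let e : EC × PN 1 ≃ EPset := Equiv.ofBijective F ⟨hinj, hsurj⟩
  have he : Continuous e := hF
  refine ⟨he.homeoOfEquivCompactToT2, ?_⟩
  rintro x y ⟨⟨a, ha⟩, b⟩ h1 h2
  change a = pt x at h1
  change b = pt y at h2
  change Sgr a b = pt (segre x y)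
  rw [h1, h2, Sgr_pt]

end Pool.Agent.H24.LB
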